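import Pool.Agent.TH930.GH.MollerC

set_option autoImplicit false

/-!
The number of cycles of the maps `T_{a,b}` (in particular of the `3x+1` and of the `5x+1` map) that are
contained in `[-X, X]`.
-/

namespace Pool.Agent.Results.MP_dee342_nt.CyclesBelowEntropy

open Finset Pool.Agent.TH930.GH

/-- the map `T_{a,b}` on the integers -/
def T (a b x : ℤ) : ℤ := if x % 2 = 0 then x / 2 else (a * x + b) / 2

/-- the periodic orbits (cycles) of a map on the integers, as finite sets:
`{x, f x, ..., f^(p-1) x}` with `p ≥ 1` and `f^p x = x` -/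
def IsCycle (f : ℤ → ℤ) (c : Finset ℤ) : Prop :=
  ∃ x : ℤ, ∃ p : ℕ, 1 ≤ p ∧ f^[p] x = x ∧ c = (range p).image (fun j => f^[j] x)

/-- the map as a map of the general form -/
theorem T_eq (a : ℕ) (b : ℤ) :
    T a b = Pool.Agent.H319R3.GC.Tm 2 (mq a) (fun i => if i = 0 then 0 else -b) := by
  funext x
  unfold T Pool.Agent.H319R3.GC.Tm
  rcases Int.emod_two_eq_zero_or_one x with h | h
  · have h1 : (x % ((2 : ℕ) : ℤ)).toNat = 0 := by
      push_cast; rw [h]; rfl
    rw [if_pos h, h1]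
    simp [mq]
  · have h1 : (x % ((2 : ℕ) : ℤ)).toNat = 1 := by
      push_cast; rw [h]; rfl
    rw [if_neg (by omega), h1]
    simp [mq]

/-- Let `H` be the base-two binary entropy of `log 2 / log a`. For every odd `a ≥ 3` there is
`η < H < 1` such that for every odd `b` there is `C` with: for all `X ≥ 1` at most `C X ^ η` cycles of
`T_{a,b}` are contained in `[-X, X]`. -/
theorem result (a : ℕ) (ha : 3 ≤ a) (ha2 : a % 2 = 1) :
    ∃ η : ℝ, 0 < η ∧ η < Real.binEntropy (Real.log 2 / Real.log a) / Real.log 2 ∧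
      Real.binEntropy (Real.log 2 / Real.log a) / Real.log 2 < 1 ∧
      ∀ b : ℤ, b % 2 = 1 → ∃ C : ℝ, 0 < C ∧ ∀ X : ℝ, 1 ≤ X →
        ({c : Finset ℤ | IsCycle (T a b) c ∧ ∀ x ∈ c, |(x : ℝ)| ≤ X}.ncard : ℝ) ≤ C * X ^ η := by
  have hcop : Nat.Coprime a 2 := by
    rw [Nat.coprime_comm, Nat.coprime_two_left, Nat.odd_iff]
    exact ha2
  obtain ⟨η, hη0, hη, hq1, h⟩ := moller_cycles (d := 2) (m := a) le_rfl (by omega) hcop
  have hq : hq 2 a = Real.binEntropy (Real.log 2 / Real.log a) / Real.log 2 := by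
    unfold hq kq
    rw [Real.qaryEntropy_two]
    push_cast
    rfl
  rw [hq] at hη hq1
  refine ⟨η, hη0, hη, hq1, fun b hb => ?_⟩
  obtain ⟨C, hC, h1⟩ := h (fun i => if i = 0 then 0 else -b) (by
    intro i hi
    interval_cases i
    · simp
    · simp only [mq, one_ne_zero, if_false]
      push_cast
      omega)
  refine ⟨C, hC, fun X hX => ?_⟩
  have h2 := h1 X hX
  rw [← T_eq] at h2
  exact h2

end Pool.Agent.Results.MP_dee342_nt.CyclesBelowEntropy
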