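import Pool.Agent.TH926.OSG.Len

set_option autoImplicit false

/-!
Cycles of the maps `T_{a,b}` on the integers (`3x+1` and `5x+1` among them) with bounded oscillation.

For a cycle `Z` with `p` elements, `o` of them odd, such that the absolute value of each element is at
most `B ≥ a` times the absolute value of each other element, the parities are determined by the visits
of the rotation by `log 2 / log a` to an interval of length `t = log B / log a - 1`. So the number of
elements of `Z` is at most about the `t`-th power of the least one, and `p log 2 - o log a` is at most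
about `p ^ (1 - 1 / t)`. For `t < 1 / 2` the ratio `o / p` is a convergent of `log 2 / log a`.
-/

namespace Pool.Agent.Results.MP_dee342_nt.CyclesBoundedOscillation

/-- The map `T_{a,b}` on the integers. -/
def T (a b x : ℤ) : ℤ := if x % 2 = 0 then x / 2 else (a * x + b) / 2

/-- `Z` is a cycle of `T_{a,b}`. -/
def IsCycle (a b : ℤ) (Z : Finset ℤ) : Prop :=
  ∃ (x : ℤ) (p : ℕ), 1 ≤ p ∧ (T a b)^[p] x = x ∧ Z = (Finset.range p).image fun i => (T a b)^[i] x

/-- The number of odd elements of `Z`. -/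
def odds (Z : Finset ℤ) : ℕ := (Z.filter fun x => x % 2 = 1).card

/-- `Z` is a cycle of `T_{a,b}` other than `{0}`, and the absolute value of each of its elements is at
most `B` times the absolute value of each other element. -/
def Osc (a b : ℤ) (B : ℝ) (Z : Finset ℤ) : Prop :=
  IsCycle a b Z ∧ Z ≠ {0} ∧ ∀ x ∈ Z, ∀ y ∈ Z, |(x : ℝ)| ≤ B * |(y : ℝ)|

/-- The proportion of the odd elements of `Z`. -/
def ratio (Z : Finset ℤ) : ℚ := (odds Z : ℚ) / Z.card

/-- `p log 2 - o log a`, where `Z` has `p` elements, `o` of them odd. -/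
noncomputable def form (a : ℤ) (Z : Finset ℤ) : ℝ :=
  (Z.card : ℝ) * Real.log 2 - odds Z * Real.log a

/-- `S` is finite and has at most `b` elements. -/
def AtMost {α : Type*} (S : Set α) (b : ℝ) : Prop := S.Finite ∧ (S.ncard : ℝ) ≤ b

lemma atMost_of {α : Type*} {S : Set α} {b : ℝ}
    (h : ∀ F : Finset α, (∀ x ∈ F, x ∈ S) → (F.card : ℝ) ≤ b) : AtMost S b := by
  classical
  have hfin : S.Finite := by
    by_contra hinf
    have hinf : S.Infinite := hinf
    obtain ⟨F, hF, hc⟩ := hinf.exists_subset_card_eq (⌊b⌋₊ + 1)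
    have h1 := h F (fun x hx => hF (Finset.mem_coe.2 hx))
    rw [hc] at h1
    have h2 := Nat.lt_floor_add_one b
    push_cast at h1
    linarith
  refine ⟨hfin, ?_⟩
  rw [Set.ncard_eq_toFinset_card S hfin]
  exact h _ fun x hx => hfin.mem_toFinset.1 hx

/-- Let `a ≥ 3` and `b` be odd, `B ≥ a` and `t = log B / log a - 1`. The cycles `Z` below (`p` elements,
`o` of them odd) are the cycles of `T_{a,b}` of oscillation at most `B`, other than `{0}`.
(1) If `B < a ^ (3 / 2)`, then for all but finitely many of them `o / p` is a convergent of the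
continued fraction of `log 2 / log a`, and those with `p ≤ P` have at most `C (1 + log log P)`
different ratios `o / p`.
(2) If `κ t < 1`, then `|p log 2 - o log a| ≤ p ^ (1 - κ)` for all but finitely many of them.
(3) Let `γ > t`. There is `C` such that at most `C X ^ γ` integers of absolute value at most `X` are
elements of such cycles; `p ≤ C |x| ^ γ` for each element `x` of such a cycle; if `γ < 1`, then for each
`lam > 0` at most `C lam ^ (-γ / (1 - γ))` of them satisfy `|p log 2 - o log a| ≥ lam`.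
(4) Let `a = 3`. If `B < 3 ^ (15 / 14)`, then there are only finitely many of them; if `γ > t` and
`γ > 1 / 14`, then at most `C P ^ (14 γ - 1)` of them have at most `P` elements. -/
theorem result (a b : ℤ) (ha : a % 2 = 1) (ha3 : 3 ≤ a) (hb : b % 2 = 1) (B : ℝ) (hB : (a : ℝ) ≤ B) :
    (B < (a : ℝ) ^ (3 / 2 : ℝ) →
      {Z : Finset ℤ | Osc a b B Z ∧ ∀ n, ratio Z ≠ (Real.log 2 / Real.log a).convergent n}.Finite ∧
      ∃ C : ℝ, ∀ P : ℕ, 3 ≤ P →
        AtMost {r : ℚ | ∃ Z, Osc a b B Z ∧ Z.card ≤ P ∧ r = ratio Z}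
          (C * (1 + Real.log (Real.log P)))) ∧
    (∀ κ : ℝ, κ * (Real.log B / Real.log a - 1) < 1 →
      {Z : Finset ℤ | Osc a b B Z ∧ ¬ |form a Z| ≤ (Z.card : ℝ) ^ (1 - κ)}.Finite) ∧
    (∀ γ : ℝ, Real.log B / Real.log a - 1 < γ → ∃ C : ℝ,
      (∀ X : ℝ, 1 ≤ X → AtMost {x : ℤ | |(x : ℝ)| ≤ X ∧ ∃ Z, Osc a b B Z ∧ x ∈ Z} (C * X ^ γ)) ∧
      (∀ Z, Osc a b B Z → ∀ x ∈ Z, (Z.card : ℝ) ≤ C * |(x : ℝ)| ^ γ) ∧
      (γ < 1 → ∀ lam : ℝ, 0 < lam →
        AtMost {Z | Osc a b B Z ∧ lam ≤ |form a Z|} (C * lam ^ (-(γ / (1 - γ)))))) ∧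
    (a = 3 →
      (B < 3 ^ (15 / 14 : ℝ) → {Z : Finset ℤ | Osc a b B Z}.Finite) ∧
      (∀ γ : ℝ, Real.log B / Real.log a - 1 < γ → 1 / 14 < γ → ∃ C : ℝ, ∀ P : ℕ, 1 ≤ P →
        AtMost {Z | Osc a b B Z ∧ Z.card ≤ P} (C * (P : ℝ) ^ (14 * γ - 1)))) := by
  have H : Pool.Agent.TH926.OSG.Par a b := ⟨ha, ha3, hb⟩
  refine ⟨fun hB2 => ⟨?_, ?_⟩, fun κ hκ => ?_, fun γ hγ => ?_, fun h3 => ⟨fun hB2 => ?_, fun γ hγ hγ1 => ?_⟩⟩
  · exact Pool.Agent.TH926.OSG.finite_convergent H hB hB2
  · obtain ⟨C, -, h⟩ := Pool.Agent.TH926.OSG.few_ratios H hB hB2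
    exact ⟨C, fun P hP => atMost_of fun F hF => h P hP F hF⟩
  · have h := Pool.Agent.TH926.OSG.finite_form H hB hκ
    refine h.subset ?_
    rintro Z ⟨h1, h2⟩
    exact ⟨h1, not_le.1 h2⟩
  · obtain ⟨C1, hC1, h1⟩ := Pool.Agent.TH926.OSG.count H hB hγ
    obtain ⟨C2, hC2, h2⟩ := Pool.Agent.TH926.OSG.one H hB hγ
    obtain ⟨C3, hC3, h3⟩ : ∃ C : ℝ, 0 < C ∧ (γ < 1 → ∀ lam : ℝ, 0 < lam →
        AtMost {Z | Osc a b B Z ∧ lam ≤ |form a Z|} (C * lam ^ (-(γ / (1 - γ))))) := by
      by_cases hγ1 : γ < 1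
      · obtain ⟨C, hC, h⟩ := Pool.Agent.TH926.OSG.count_form H hB hγ hγ1
        exact ⟨C, hC, fun _ lam hlam => atMost_of fun F hF => h lam hlam F hF⟩
      · exact ⟨1, one_pos, fun h => absurd h hγ1⟩
    refine ⟨max C1 (max C2 C3), fun X hX => ?_, fun Z hZ x hx => ?_, fun hγ1 lam hlam => ?_⟩
    · have h := atMost_of (S := {x : ℤ | |(x : ℝ)| ≤ X ∧ ∃ Z, Osc a b B Z ∧ x ∈ Z})
        (b := C1 * X ^ γ) fun F hF => h1 X hX F hF
      exact ⟨h.1, h.2.trans (mul_le_mul_of_nonneg_right (le_max_left _ _) (by positivity))⟩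
    · exact ((h2 Z hZ).1 x hx).trans (mul_le_mul_of_nonneg_right
        ((le_max_left _ _).trans (le_max_right _ _)) (by positivity))
    · have h := h3 hγ1 lam hlam
      exact ⟨h.1, h.2.trans (mul_le_mul_of_nonneg_right
        ((le_max_right _ _).trans (le_max_right _ _)) (by positivity))⟩
  · have hel := Pool.Agent.TH926.OSG.elements_le H h3 hB
    refine Pool.Agent.TH926.OSG.finite_small H hB ?_ hel
    rw [h3]
    push_cast
    exact hB2
  · have hel := Pool.Agent.TH926.OSG.elements_le H h3 hB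
    obtain ⟨C, -, h⟩ := Pool.Agent.TH926.OSG.count_len H hB hγ (by linarith) hel
    exact ⟨C, fun P hP => atMost_of fun F hF => h P hP F hF⟩

end Pool.Agent.Results.MP_dee342_nt.CyclesBoundedOscillation
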