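import Mathlib
import Pool.Agent.TH932.S2.G.Tab
import Pool.Agent.TH932.S2.G.DescD

set_option autoImplicit false

/-!
# The complexity of the cycles of the maps `T_{a,b}` at single scales
-/

namespace Pool.Agent.Results.MP_dee342_nt.CyclesSmallScales

open Pool.Agent.TH932.S2.G Pool.Agent.TH932.Words

/-- The map `T_{a,b}` on the integers: `(a x + b) / 2` for odd `x`, `x / 2` for even `x`. -/
def T (a b x : ℤ) : ℤ := if x % 2 = 0 then x / 2 else (a * x + b) / 2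

/-- `Z` is a cycle of `T_{a,b}`. -/
def IsCycle (a b : ℤ) (Z : Finset ℤ) : Prop :=
  ∃ (x : ℤ) (p : ℕ), 1 ≤ p ∧ (T a b)^[p] x = x ∧ Z = (Finset.range p).image fun i => (T a b)^[i] x

/-- the parity words of length `n` which can be read along `Z` -/
def words (a b : ℤ) (Z : Finset ℤ) (n : ℕ) : Finset (Fin n → ℤ) :=
  Z.image fun x => fun j : Fin n => (T a b)^[(j : ℕ)] x % 2

/-- the number of different parity words of length `n` among the first `h` terms of the orbit of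
`x` -/
noncomputable def wordsFrom (a b x : ℤ) (h n : ℕ) : ℕ :=
  ((fun i : ℕ => fun j : Fin n => (T a b)^[i + j] x % 2) '' {i | i + n ≤ h}).ncard

lemma wordsFrom_ge (a b x : ℤ) (h n : ℕ) :
    Pool.Agent.TH932.S2.F.wc (Pool.Agent.TH932.S2.F.wd Tb.f (Pool.Agent.H547R3.Sub.Tm a b) x) h n
      ≤ wordsFrom a b x h n := by
  classical
  have e : Pool.Agent.H547R3.Sub.Tm a b = T a b := rfl
  rw [e]
  unfold Pool.Agent.TH932.S2.F.wc wordsFrom
  have e2 : (fun i => fac (Pool.Agent.TH932.S2.F.wd Tb.f (T a b) x) n i) =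
      (fun v : Fin n → ℤ => fun j => ((v j : ℤ) : ZMod 2)) ∘
        (fun i : ℕ => fun j : Fin n => (T a b)^[i + j] x % 2) := by
    funext i j
    simp only [Function.comp_apply, fac, Pool.Agent.TH932.S2.F.wd, Tb.f]
    exact ((ZMod.intCast_eq_intCast_iff _ _ 2).2 (Int.mod_modEq _ _)).symm
  rw [e2, Set.image_comp]
  apply Set.ncard_image_le
  apply Set.Finite.subset
    (Set.finite_univ.image (fun v : Fin n → Fin 2 => fun j => (((v j : Fin 2) : ℕ) : ℤ)))
  rintro _ ⟨i, _, rfl⟩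
  refine ⟨fun j => ⟨((T a b)^[i + j] x % 2).toNat, by omega⟩, trivial, ?_⟩
  funext j
  simp only
  omega

/-- **Result.** Let `a ≥ 3` be odd and `C` a real number.

(1) There is `K` such that for all odd `b`, all cycles `Z` of `T_{a,b}`, all `x` in `Z` and all `n`
with `K ≤ n`, `n ^ K ≤ |Z|` and `|b|, |x| ≤ 2 ^ n` more than `C n` different parity words of length
`n` occur among the `n ^ K` terms of the cycle beginning with `x`.

(2) If `a` is a prime and `b` is odd, then there is `K` such that for all cycles `Z` of `T_{a,b}` and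
all `n` with `K (1 + log |Z|) ^ 2 ≤ n` and `n ^ K ≤ |Z|` more than `C n` different parity words of
length `n` can be read along `Z`.

(3) For every `R` there is `K` such that for all odd `b` and all cycles `Z` of `T_{a,b}` without
elements in `[-K |b| ^ K, K |b| ^ K]`: for every `x` in `Z` there is an interval `[m, R m]` with
`m ≥ R`, `m ≥ log |b|` and `R m ≤ log |x|` such that for all integers `n` in it more than `C n`
different parity words of length `n` occur among the `K log |x|` terms of the cycle beginning with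
`x`. -/
theorem result (a : ℕ) (ha3 : 3 ≤ a) (ha1 : a % 2 = 1) (C : ℝ) :
    (∃ K : ℕ, ∀ b : ℤ, b % 2 = 1 → ∀ Z : Finset ℤ, IsCycle a b Z → ∀ x ∈ Z, ∀ n : ℕ, K ≤ n →
      |b| ≤ 2 ^ n → |x| ≤ 2 ^ n → n ^ K ≤ Z.card → C * n < wordsFrom a b x (n ^ K) n) ∧
    (a.Prime → ∀ b : ℤ, b % 2 = 1 → ∃ K : ℕ, ∀ Z : Finset ℤ, IsCycle a b Z → ∀ n : ℕ,
      K * (1 + Real.log Z.card) ^ 2 ≤ n → n ^ K ≤ Z.card → C * n < (words a b Z n).card) ∧
    (∀ R : ℝ, ∃ K : ℕ, ∀ b : ℤ, b % 2 = 1 → ∀ Z : Finset ℤ, IsCycle a b Z →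
      (∀ y ∈ Z, (K : ℤ) * |b| ^ K < |y|) → ∀ x ∈ Z,
      ∃ m : ℕ, R ≤ m ∧ 1 ≤ m ∧ Real.log |(b : ℝ)| ≤ m ∧ R * m ≤ Real.log |(x : ℝ)| ∧
        ∀ n : ℕ, m ≤ n → (n : ℝ) ≤ R * m →
          C * n < wordsFrom a b x ⌊K * Real.log |(x : ℝ)|⌋₊ n) := by
  refine ⟨?_, ?_, ?_⟩
  · obtain ⟨K, hK⟩ := Tb.cyc_from ha3 ha1 C
    refine ⟨K, fun b hb Z hZ x hx n h1 h2 h3 h4 => ?_⟩
    refine lt_of_lt_of_le (hK b hb Z hZ x hx n h1 h2 h3 h4) ?_
    exact_mod_cast wordsFrom_ge a b x (n ^ K) n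
  · intro ha b hb
    obtain ⟨K, hK⟩ := Tb.cyc_scale ha (by rintro rfl; omega) hb C
    exact ⟨K, fun Z hZ n h1 h2 => hK Z hZ n h1 h2⟩
  · intro R
    obtain ⟨K, _, hK⟩ := desc_d (Tb.T a ha3 ha1) C R
    refine ⟨K, fun b hb Z hZ hbig x hx => ?_⟩
    have hcl : ∀ i, (Pool.Agent.H547R3.Sub.Tm a b)^[i] x ∈ Z := fun i =>
      Pool.Agent.W42.CpxG.IsCyc.closed (f := Pool.Agent.H547R3.Sub.Tm a b) hZ hx i
    obtain ⟨m, h1, h2, h3, h4, h5⟩ := hK b Tb.f (Pool.Agent.H547R3.Sub.Tm a b)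
      (Tb.mp ha3 ha1 hb) x (fun i _ => hbig _ (hcl i))
    refine ⟨m, h2, h1, h3, h4, fun n a1 a2 => (h5 n a1 a2).trans_le ?_⟩
    exact_mod_cast wordsFrom_ge a b x _ n

end Pool.Agent.Results.MP_dee342_nt.CyclesSmallScales
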