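import Mathlib
import Pool.Agent.TH796.F4.Cyc5

set_option autoImplicit false

/-!
The cycles of the maps `T_{a,b}` have superlinear complexity.
-/

namespace Pool.Agent.Results.MP_dee342_nt.SuperlinearCycleComplexity

/-- The map `T_{a,b}` on the integers: `(a x + b) / 2` for odd `x`, `x / 2` for even `x`. -/
def T (a b x : ℤ) : ℤ := if x % 2 = 0 then x / 2 else (a * x + b) / 2

/-- `Z` is a cycle of `T_{a,b}`. -/
def IsCycle (a b : ℤ) (Z : Finset ℤ) : Prop :=
  ∃ (x : ℤ) (p : ℕ), 1 ≤ p ∧ (T a b)^[p] x = x ∧ Z = (Finset.range p).image fun i => (T a b)^[i] x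

/-- the parity words of length `n` which can be read along `Z` -/
def words (a b : ℤ) (Z : Finset ℤ) (n : ℕ) : Finset (Fin n → ℤ) :=
  Z.image fun x => fun j : Fin n => (T a b)^[(j : ℕ)] x % 2

/-- Let `a` be an odd prime, `b` an odd integer and `C` any real number. (1) There is `K` such that
for every cycle `Z` of `T_{a,b}` on the integers and every real `L` with
`K (1 + log |Z|) ^ 2 ≤ L ≤ |Z| / K` there is a length `n` with `L ≤ n ≤ K L` for which more than
`C n` different parity words of length `n` can be read along `Z`. (2) Only finitely many cycles of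
`T_{a,b}` have at most `C n + C` parity words of length `n` for every `n`. -/
theorem result (a : ℕ) (ha : a.Prime) (ha2 : a ≠ 2) (b : ℤ) (hb : b % 2 = 1) (C : ℝ) :
    (∃ K : ℝ, ∀ Z : Finset ℤ, IsCycle a b Z → ∀ L : ℝ, K * (1 + Real.log Z.card) ^ 2 ≤ L →
      K * L ≤ Z.card → ∃ n : ℕ, L ≤ n ∧ (n : ℝ) ≤ K * L ∧ C * n < (words a b Z n).card) ∧
    {Z : Finset ℤ | IsCycle a b Z ∧ ∀ n : ℕ, ((words a b Z n).card : ℝ) ≤ C * n + C}.Finite := by
  constructor
  · obtain ⟨K, -, hK⟩ := Pool.Agent.TH796.F4.cyc_main ha ha2 hb C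
    exact ⟨K, hK⟩
  · exact Pool.Agent.TH796.F4.cyc_finite ha ha2 hb C

end Pool.Agent.Results.MP_dee342_nt.SuperlinearCycleComplexity
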